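import Pool.Agent.Helper37.KD.DefsC
import Pool.Agent.Helper37.KD.St.A3

/-! KD Part I, piece C4 -/

namespace KD.I.C4

open Finset KD

theorem n1_ee {d : ℕ} {N : ℕ} (hN : 2 ≤ N) (i : Fin d) : n1 (ee i : V d N) = 1 := by
  unfold n1
  rw [Finset.sum_eq_single i]
  · have h1 : (ee i : V d N) i = ((1 : ℕ) : ZMod N) := by simp [ee]
    rw [h1, ZMod.valMinAbs_natCast_of_le_half (by omega)]
    simp
  · intro j _ hj
    have h1 : (ee i : V d N) j = 0 := by simp [ee, hj]
    rw [h1]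
    simp
  · intro h
    exact absurd (Finset.mem_univ i) h

theorem n1_zero {d : ℕ} {N : ℕ} : n1 (0 : V d N) = 0 := by
  unfold n1
  simp

theorem n1_neg {d : ℕ} {N : ℕ} (x : V d N) : n1 (-x) = n1 x := by
  unfold n1
  refine Finset.sum_congr rfl fun i _ => ?_
  rw [Pi.neg_apply, ZMod.natAbs_valMinAbs_neg]

section env

variable {d : ℕ} {s c0 C0 C1 : ℝ} (E : Env d s c0 C0 C1)

theorem two_le_N : 2 ≤ E.N := by
  refine le_trans ?_ E.hN
  calc 2 = 2 ^ 1 := rfl
    _ ≤ 2 ^ (E.K + 8) := Nat.pow_le_pow_right (by norm_num) (by omega)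

theorem one_le_R (hs : 0 < s) (k : ℕ) : 8 ≤ E.R k := by
  unfold Env.R Rad
  have h1 := E.hM
  have h2 := E.hε
  have h3 := one_le_tim hs k
  have h4 : (1 : ℝ) ≤ 2 ^ k := one_le_pow₀ one_le_two
  have h5 : 8 ≤ E.M / E.ε := by
    rw [le_div_iff₀ h2]
    have := E.hε1
    linarith
  have h6 : 8 ≤ E.M / E.ε * 2 ^ k := by nlinarith
  nlinarith

theorem nrm_e (k : ℕ) (i : Fin d) :
    nrm (2 ^ k) (E.R k) (xs (ee i) : E.G) = 1 / E.R k := by
  unfold nrm xs
  simp only
  rw [n1_ee (two_le_N E), n1_zero]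
  ring

theorem nrm_neg_e (k : ℕ) (i : Fin d) :
    nrm (2 ^ k) (E.R k) (-(xs (ee i)) : E.G) = 1 / E.R k := by
  have : (-(xs (ee i)) : E.G) = (-(ee i), -0) := rfl
  rw [this]
  unfold nrm
  simp only
  rw [n1_neg, n1_neg, n1_ee (two_le_N E), n1_zero]
  ring

/-- reflection in the `x` component -/
def rho (d N : ℕ) : GG d N ≃+ GG d N :=
  AddEquiv.prodCongr (AddEquiv.neg _) (AddEquiv.refl _)

theorem rho_apply {d N : ℕ} (z : GG d N) : rho d N z = (-z.1, z.2) := rfl

theorem core (hs : 0 < s) {ν : E.G → ℝ} (hν : IsP ν) {k : ℕ} (hk : k ≤ E.K) (i : Fin d) :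
    Qf (fun z => lev E.q ν (k + 1) (z + xs (ee i)) - lev E.q ν (k + 1) (z - xs (ee i)))
      (lev E.q ν (k + 1)) ≤ (3 / E.R k) ^ 2 * E.Xk ν k := by
  have hR := one_le_R E hs k
  have hRpos : 0 < E.R k := by linarith
  have hker := E.ker k hk
  set e : E.G := xs (ee i) with he
  set κ : E.G → ℝ := fun w => E.q k (w + e) - E.q k (w - e) with hκ
  set n : ℝ := 1 / E.R k with hn
  have hn0 : 0 < n := by positivity
  have hn1 : n ≤ 1 := by
    rw [hn, div_le_one hRpos]; linarith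
  have hcv : (fun z => lev E.q ν (k + 1) (z + e) - lev E.q ν (k + 1) (z - e)) =
      cv κ (lev E.q ν k) := by
    funext z
    rw [lev_succ, sub_eq_add_neg z e, cv_shift_ker, cv_shift_ker]
    unfold cv
    rw [← Finset.sum_sub_distrib]
    refine Finset.sum_congr rfl fun w _ => ?_
    rw [hκ]
    simp only [← sub_eq_add_neg]
    ring
  have hbd1 : ∀ w, E.q k (w + e) ≤ Real.exp n * E.q k w := by
    intro w
    have := hker.lip w e
    rwa [show nrm (2 ^ k) (Rad s E.M E.ε k) e = n from nrm_e E k i] at this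
  have hbd2 : ∀ w, E.q k (w - e) ≤ Real.exp n * E.q k w := by
    intro w
    have := hker.lip w (-e)
    rw [show nrm (2 ^ k) (Rad s E.M E.ε k) (-e) = n from nrm_neg_e E k i, ← sub_eq_add_neg] at this
    exact this
  have hlo1 : ∀ w, Real.exp (-n) * E.q k w ≤ E.q k (w + e) := by
    intro w
    have h1 := hbd2 (w + e)
    rw [add_sub_cancel_right] at h1
    rw [Real.exp_neg, inv_mul_le_iff₀ (Real.exp_pos n)]
    exact h1
  have hlo2 : ∀ w, Real.exp (-n) * E.q k w ≤ E.q k (w - e) := by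
    intro w
    have h1 := hbd1 (w - e)
    rw [sub_add_cancel] at h1
    rw [Real.exp_neg, inv_mul_le_iff₀ (Real.exp_pos n)]
    exact h1
  have hexp1 : Real.exp n ≤ 1 + 2 * n := by
    have h1 := Real.abs_exp_sub_one_le (x := n) (by rwa [abs_of_pos hn0])
    rw [abs_of_pos hn0] at h1
    have := (abs_le.1 h1).2
    linarith
  have hexp2 : 1 - n ≤ Real.exp (-n) := by
    have := Real.add_one_le_exp (-n)
    linarith
  have hκg : ∀ w, |κ w| ≤ (3 * n) * E.q k w := by
    intro w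
    have h0 := (E.q_pos hk w).le
    rw [hκ, abs_le]
    constructor
    · have h1 := hlo1 w
      have h2 := hbd2 w
      nlinarith
    · have h1 := hlo2 w
      have h2 := hbd1 w
      nlinarith
  have hrhoe : ∀ w : E.G, rho d E.N (w + e) = rho d E.N w - e := by
    intro w
    rw [map_add]
    have : rho d E.N e = - e := by
      rw [rho_apply, he]
      unfold xs
      exact Prod.ext rfl (by simp)
    rw [this, sub_eq_add_neg]
  have hrhoe' : ∀ w : E.G, rho d E.N (w - e) = rho d E.N w + e := by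
    intro w
    have := hrhoe (w - e)
    rw [sub_add_cancel] at this
    rw [this, sub_add_cancel]
  have hqρ : ∀ w, E.q k (rho d E.N w) = E.q k w := fun w => hker.symx w.1 w.2
  have hκρ : ∀ w, κ (rho d E.N w) = - κ w := by
    intro w
    rw [hκ]
    simp only
    rw [← hrhoe' w, ← hrhoe w, hqρ, hqρ]
    ring
  have hmain := Qf_antisym κ (E.q k) (lev E.q ν k) (fun _ => 3 * n) (rho d E.N)
    (fun w => by rw [rho_apply, rho_apply]; simp) (fun z => E.q_pos hk z)
    (fun z => E.u_nonneg hν (by omega) z) hκρ hqρ (fun _ => by positivity) (fun _ => rfl) hκg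
  rw [hcv, lev_succ]
  refine hmain.trans (le_of_eq ?_)
  unfold Env.Xk
  rw [Finset.mul_sum]
  refine Finset.sum_congr rfl fun w _ => ?_
  have h1 : w - rho d E.N w = xs (w.1 + w.1) := by
    rw [rho_apply]
    unfold xs
    exact Prod.ext (by simp) (by simp)
  rw [h1, hn]
  ring

theorem lo_bounds (hs : 0 < s) {ν : E.G → ℝ} (hν : IsP ν) {k : ℕ} (hk : k ≤ E.K) (i : Fin d)
    (z : E.G) : lev E.q ν (k + 1) z / 2 ≤ lev E.q ν (k + 1) (z + xs (ee i)) ∧
      lev E.q ν (k + 1) z / 2 ≤ lev E.q ν (k + 1) (z - xs (ee i)) := by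
  have hR := one_le_R E hs k
  have hRpos : 0 < E.R k := by linarith
  set e : E.G := xs (ee i) with he
  set n : ℝ := 1 / E.R k with hn
  have hn0 : 0 < n := by positivity
  have hn1 : n ≤ 1 / 8 := by
    rw [hn]
    exact one_div_le_one_div_of_le (by norm_num) hR
  have hexp : Real.exp n ≤ 2 := by
    have h1 := Real.abs_exp_sub_one_le (x := n) (by rw [abs_of_pos hn0]; linarith)
    rw [abs_of_pos hn0] at h1
    have := (abs_le.1 h1).2
    linarith
  constructor
  · have h1 := E.u_lip hν hk (z + e) (-e)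
    rw [show E.nm k (-e) = n from nrm_neg_e E k i, add_neg_cancel_right] at h1
    have h2 := (E.u_pos hν hk (z + e)).le
    nlinarith
  · have h1 := E.u_lip hν hk (z - e) e
    rw [show E.nm k e = n from nrm_e E k i, sub_add_cancel] at h1
    have h2 := (E.u_pos hν hk (z - e)).le
    nlinarith

end env

theorem log_sq_le {u a b : ℝ} (hu : 0 < u) (ha : u / 2 ≤ a) (hb : u / 2 ≤ b) :
    u * (Real.log a - Real.log b) ^ 2 ≤ 4 * ((a - b) ^ 2 / u) := by
  have ha0 : 0 < a := by linarith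
  have hb0 : 0 < b := by linarith
  have h1 : |Real.log a - Real.log b| ≤ |a - b| / (u / 2) := by
    wlog hab : b ≤ a generalizing a b
    · rw [abs_sub_comm, abs_sub_comm a b]
      exact this hb ha hb0 ha0 (le_of_not_ge hab)
    · rw [abs_of_nonneg (sub_nonneg.2 (Real.log_le_log hb0 hab)), abs_of_nonneg (sub_nonneg.2 hab),
        ← Real.log_div ha0.ne' hb0.ne']
      have h2 := Real.log_le_sub_one_of_pos (div_pos ha0 hb0)
      refine h2.trans ?_
      have h3 : a / b - 1 = (a - b) / b := by field_simp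
      rw [h3]
      exact div_le_div_of_nonneg_left (sub_nonneg.2 hab) (by linarith) hb
  have h2 : (Real.log a - Real.log b) ^ 2 ≤ (|a - b| / (u / 2)) ^ 2 := by
    rw [← sq_abs]
    exact pow_le_pow_left₀ (abs_nonneg _) h1 2
  calc u * (Real.log a - Real.log b) ^ 2 ≤ u * (|a - b| / (u / 2)) ^ 2 :=
        mul_le_mul_of_nonneg_left h2 hu.le
    _ = 4 * ((a - b) ^ 2 / u) := by
        rw [div_pow, sq_abs]
        field_simp
        ring

theorem sqrt_sq_le {u a b : ℝ} (hu : 0 < u) (ha : u / 2 ≤ a) (hb : u / 2 ≤ b) :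
    (√a - √b) ^ 2 ≤ (a - b) ^ 2 / u := by
  have ha0 : 0 < a := by linarith
  have hb0 : 0 < b := by linarith
  rw [le_div_iff₀ hu]
  have h1 : (a - b) ^ 2 = (√a - √b) ^ 2 * (√a + √b) ^ 2 := by
    have h2 : a - b = (√a - √b) * (√a + √b) := by
      have := Real.sq_sqrt ha0.le
      have := Real.sq_sqrt hb0.le
      nlinarith
    rw [h2]; ring
  rw [h1]
  refine mul_le_mul_of_nonneg_left ?_ (sq_nonneg _)
  have h3 := Real.sq_sqrt ha0.le
  have h4 := Real.sq_sqrt hb0.le
  have h5 : 0 ≤ √a * √b := by positivity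
  nlinarith

/-- (b2) -/
theorem x_diff_log (s c0 C0 C1 : ℝ) (d : ℕ) (hs : 0 < s) : ∃ C : ℝ, 0 < C ∧
    ∀ (E : Env d s c0 C0 C1) (ν : E.G → ℝ), IsP ν → ∀ k ≤ E.K, ∀ i : Fin d,
      ∑ z, lev E.q ν (k + 1) z * (Real.log (lev E.q ν (k + 1) (z + xs (ee i)))
          - Real.log (lev E.q ν (k + 1) (z - xs (ee i)))) ^ 2 ≤ (C / E.R k) ^ 2 * E.Xk ν k := by
  refine ⟨6, by norm_num, fun E ν hν k hk i => ?_⟩
  have h1 := core E hs hν hk i
  calc _ ≤ ∑ z, 4 * ((lev E.q ν (k + 1) (z + xs (ee i)) - lev E.q ν (k + 1) (z - xs (ee i))) ^ 2 /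
        lev E.q ν (k + 1) z) := by
        refine Finset.sum_le_sum fun z _ => ?_
        obtain ⟨h2, h3⟩ := lo_bounds E hs hν hk i z
        exact log_sq_le (E.u_pos hν hk z) h2 h3
    _ = 4 * Qf (fun z => lev E.q ν (k + 1) (z + xs (ee i)) - lev E.q ν (k + 1) (z - xs (ee i)))
      (lev E.q ν (k + 1)) := by
        rw [← Finset.mul_sum]; rfl
    _ ≤ 4 * ((3 / E.R k) ^ 2 * E.Xk ν k) := mul_le_mul_of_nonneg_left h1 (by norm_num)
    _ = (6 / E.R k) ^ 2 * E.Xk ν k := by ring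

theorem x_diff_he (s c0 C0 C1 : ℝ) (d : ℕ) (hs : 0 < s) : ∃ C : ℝ, 0 < C ∧
    ∀ (E : Env d s c0 C0 C1) (ν : E.G → ℝ), IsP ν → ∀ k ≤ E.K, ∀ i : Fin d,
      he (lev E.q ν (k + 1)) (xs (ee i + ee i)) ≤ (C / E.R k) ^ 2 * E.Xk ν k := by
  refine ⟨3, by norm_num, fun E ν hν k hk i => ?_⟩
  refine le_trans ?_ (core E hs hν hk i)
  unfold he Qf
  rw [← sum_shift_sub (fun z => (√(lev E.q ν (k + 1) (z + xs (ee i + ee i))) -
    √(lev E.q ν (k + 1) z)) ^ 2) (xs (ee i))]
  refine Finset.sum_le_sum fun z _ => ?_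
  have h0 : z - xs (ee i) + xs (ee i + ee i) = z + xs (ee i) := by
    have : (xs (ee i + ee i) : E.G) = xs (ee i) + xs (ee i) := by
      unfold xs
      exact Prod.ext rfl (by simp)
    rw [this]; abel
  simp only [h0]
  obtain ⟨h2, h3⟩ := lo_bounds E hs hν hk i z
  exact sqrt_sq_le (E.u_pos hν hk z) h2 h3

end KD.I.C4
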